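import Pool.Agent.Y265.Onl3

set_option autoImplicit false

open MeasureTheory
open scoped ENNReal

namespace Pool.Agent.Results.MP_e081a1_an.ExponentOne

/-- Bounded geometry: balls of a given radius have uniformly boundedly many points. -/
def BoundedGeometry (X : Type) [MetricSpace X] : Prop :=
  ∀ R : ℝ, 0 < R → ∃ N : ℕ, ∀ x : X, (Metric.ball x R).Finite ∧ (Metric.ball x R).ncard ≤ N

section

variable {E : Type} [NormedAddCommGroup E] [NormedSpace ℝ E] {p : ℝ≥0∞} [Fact (1 ≤ p)] {X : Type}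
  [MetricSpace X] [MeasurableSpace X] {ν : Measure X}

/-- `g` vanishes (almost everywhere) on `S`. -/
def VanishesOn (g : Lp E p ν) (S : Set X) : Prop := ∀ᵐ z ∂ν, z ∈ S → g z = 0

/-- `T` is a linear map. -/
def IsLinear (T : Lp E p ν → Lp E p ν) : Prop := IsLinearMap ℝ T

/-- `‖T g‖ ≤ K ‖g‖` for all `g`. -/
def NormLe (T : Lp E p ν → Lp E p ν) (K : ℝ) : Prop := ∀ g, ‖T g‖ ≤ K * ‖g‖

/-- `T` is a linear map with `‖T g‖ ≤ K ‖g‖` for all `g`. -/
def LinearBound (T : Lp E p ν → Lp E p ν) (K : ℝ) : Prop := IsLinear T ∧ NormLe T K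

/-- The propagation of `T` is at most `r`: if `dist x y > r`, then `χ_V T χ_U = 0` for some open
neighbourhoods `U` of `x` and `V` of `y`. -/
def PropagationLe (T : Lp E p ν → Lp E p ν) (r : ℝ) : Prop :=
  ∀ x y : X, r < dist x y → ∃ U V : Set X, IsOpen U ∧ IsOpen V ∧ x ∈ U ∧ y ∈ V ∧
    ∀ g : Lp E p ν, VanishesOn g Uᶜ → VanishesOn (T g) V

/-- `ξ` is supported in a set of diameter at most `d`. -/
def SupportDiamLe (ξ : Lp E p ν) (d : ℝ) : Prop :=
  ∃ S : Set X, (∀ a ∈ S, ∀ b ∈ S, dist a b ≤ d) ∧ VanishesOn ξ Sᶜ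

/-- `‖T ξ‖ ≥ c K ‖ξ‖` for a bound `K` of `T`, that is `‖T ξ‖ ≥ c ‖T‖ ‖ξ‖`. -/
def NearNorm (T : Lp E p ν → Lp E p ν) (ξ : Lp E p ν) (c : ℝ) : Prop :=
  ∃ K, LinearBound T K ∧ c * K * ‖ξ‖ ≤ ‖T ξ‖

/-- Some nonzero `ξ` supported in a set of diameter at most `d` has `‖T ξ‖ ≥ c ‖T‖ ‖ξ‖`. -/
def LocalizedAt (T : Lp E p ν → Lp E p ν) (c d : ℝ) : Prop :=
  ∃ ξ : Lp E p ν, ξ ≠ 0 ∧ SupportDiamLe ξ d ∧ NearNorm T ξ c

end

/-- The `p`-operator norm localization property with coefficient space `E`. -/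
def ONLwith (E : Type) [NormedAddCommGroup E] [NormedSpace ℝ E] (p : ℝ≥0∞) [Fact (1 ≤ p)]
    (X : Type) [MetricSpace X] [MeasurableSpace X] : Prop :=
  ∃ c : ℝ, 0 < c ∧ c ≤ 1 ∧ ∃ f : ℕ → ℕ, Monotone f ∧
    ∀ (ν : Measure X) [IsLocallyFiniteMeasure ν], ν ≠ 0 → ∀ (r : ℕ) (T : Lp E p ν → Lp E p ν),
      (∃ K, LinearBound T K) → PropagationLe T r → LocalizedAt T c (f r)

/-- The `p`-operator norm localization property, with coefficient space `ℓ^p`. -/
def ONL (p : ℝ≥0∞) [Fact (1 ≤ p)] (X : Type) [MetricSpace X] [MeasurableSpace X] : Prop :=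
  ONLwith (lp (fun _ : ℕ => ℝ) p) p X

/-- Yu's property A. -/
def PropertyA (X : Type) [MetricSpace X] : Prop :=
  ∀ R : ℝ, 0 < R → ∀ ε : ℝ, 0 < ε →
    ∃ S : ℝ, ∃ A : X → Set (X × ℕ),
      (∀ x, (A x).Finite) ∧ (∀ x, (x, 0) ∈ A x) ∧
      (∀ x, ∀ w ∈ A x, dist w.1 x ≤ S) ∧
      ∀ x y, dist x y < R →
        ((symmDiff (A x) (A y)).ncard : ℝ) < ε * ((A x ∩ A y).ncard : ℝ)

open Pool.Agent.Y265.Onl in
/-- For `p = 1` the operator norm localization property holds for every metric space with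
bounded geometry, and there is such a space without property A. -/
theorem result :
    (∀ (X : Type) [MetricSpace X] [MeasurableSpace X] [BorelSpace X],
      BoundedGeometry X → ONL 1 X) ∧
    ∃ (X : Type) (_ : MetricSpace X) (_ : MeasurableSpace X) (_ : BorelSpace X),
      BoundedGeometry X ∧ ONL 1 X ∧ ¬ PropertyA X := by
  have h1 : ∀ (X : Type) [MetricSpace X] [MeasurableSpace X] [BorelSpace X],
      BoundedGeometry X → ONL 1 X := by
    intro X _ _ _ hX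
    have hc : Countable X := by
      rcases isEmpty_or_nonempty X with h | ⟨⟨x⟩⟩
      · infer_instance
      · rw [← Set.countable_univ_iff]
        have : (Set.univ : Set X) = ⋃ n : ℕ, Metric.ball x ((n : ℝ) + 1) := by
          ext y
          simp only [Set.mem_univ, Set.mem_iUnion, Metric.mem_ball, true_iff]
          obtain ⟨n, hn⟩ := exists_nat_gt (dist y x)
          exact ⟨n, by linarith⟩
        rw [this]
        refine Set.countable_iUnion fun n => ?_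
        obtain ⟨N, hN⟩ := hX ((n : ℝ) + 1) (by positivity)
        exact (hN x).1.countable
    refine ⟨1 / 2, by norm_num, by norm_num, fun _ => 0, monotone_const, ?_⟩
    rintro ν _ hν r T ⟨K, ⟨h1, h2⟩, h3⟩ _
    let L : Lp (lp (fun _ : ℕ => ℝ) 1) 1 ν →L[ℝ] Lp (lp (fun _ : ℕ => ℝ) 1) 1 ν :=
      LinearMap.mkContinuous ⟨⟨T, h1⟩, h2⟩ K h3
    obtain ⟨ξ, hξ, hS, hb⟩ := onl1 ν hν L
    exact ⟨ξ, hξ, hS, ‖L‖, ⟨⟨h1, h2⟩, fun g => L.le_opNorm g⟩, hb⟩
  exact ⟨h1, Pool.Agent.Y265.Onl.X, inferInstance, inferInstance, inferInstance, bg,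
    h1 Pool.Agent.Y265.Onl.X bg, notA⟩

end Pool.Agent.Results.MP_e081a1_an.ExponentOne
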